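import Pool.Agent.TH829.Inj.Main

/-!
# Splitting of injective morphisms, the standard conjecture D and conservativity

`𝒜` is a `ℚ`-linear symmetric monoidal category with duals in which the endomorphisms of the unit
object are the rational multiples of the identity, and `F` is a realisation: a symmetric monoidal
functor to finite-dimensional super vector spaces over a field `K` of characteristic zero. The
example is the category of Chow motives over an algebraically closed field, with its `l`-adic
homology (`K = ℚ_l`, the parity is given by the degree).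

(1) Every morphism `f : M ⟶ N` with `F(f)` injective has a left inverse if and only if

* (D) the standard conjecture D holds: a morphism `u : 𝟙 ⟶ E` (for `E = h(X)(i)`, a cycle class on
  `X`) such that all `v ∘ u`, `v : E ⟶ 𝟙`, are zero (the class is numerically trivial) has
  `F(u) = 0` (it is homologically trivial), and
* (C) `F` is conservative: `f` is an isomorphism if `F(f)` is bijective.

(2) For one morphism `f : M ⟶ N` with `F(f)` injective: if `M` is Kimura-finite and the standard
conjecture D holds for `E = M ⊗ M^∨` and `E = N ⊗ M^∨` then `f` has a left inverse.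

Proof. If injective morphisms split, apply this to `u : 𝟙 ⟶ E`, and, for (C), to `f` and to its
left inverse. Conversely let `A` be the ring of the endomorphisms of `M` modulo homological
equivalence. By D for `M ⊗ M^∨` the trace form of `A` is non-degenerate; it is the restriction of the
supertrace of the endomorphisms of `F(M)`. So `A` is of finite dimension over `ℚ`, and it is
semisimple because nilpotent elements have trace zero (Jannsen's argument). Hence the left ideal
of the `g ∘ f`, `g : N ⟶ M`, is generated by an idempotent `g ∘ f`, and `f ∘ (g ∘ f - 1)` is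
orthogonal to all `h : N ⟶ M`; by D for `N ⊗ M^∨` it is homologically trivial. As `F(f)` is injective,
`F(g ∘ f) = 1`. By conservativity, or by nilpotence if `M` is Kimura-finite, `g ∘ f` is invertible.
-/

set_option autoImplicit false

open CategoryTheory MonoidalCategory

universe u v w

namespace Pool.Agent.Results.MP_a147f7_ag.EquivalentConjectures

open Pool.Agent.TH90.Kim (SuperRealisation KimuraFinite)

/-- The standard conjecture D for `E`: numerically trivial morphisms `𝟙 ⟶ E` are homologically
trivial. -/
def StandardD {𝒜 : Type u} [Category.{v} 𝒜] [MonoidalCategory 𝒜] [SymmetricCategory 𝒜]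
    [Preadditive 𝒜] [Linear ℚ 𝒜] {K : Type w} [Field K] (F : SuperRealisation 𝒜 K)
    (E : 𝒜) : Prop :=
  ∀ u : 𝟙_ 𝒜 ⟶ E, (∀ v : E ⟶ 𝟙_ 𝒜, u ≫ v = 0) → ∀ x : F.V (𝟙_ 𝒜), F.map u x = 0

/-- (1) Every morphism with injective realisation splits if and only if the standard conjecture D
holds for all objects and the realisation is conservative. (2) A morphism `f : M ⟶ N` with injective
realisation splits if `M` is Kimura-finite and the standard conjecture D holds for `M ⊗ M^∨` and
`N ⊗ M^∨`. -/
theorem result {𝒜 : Type u} [Category.{v} 𝒜] [MonoidalCategory 𝒜] [SymmetricCategory 𝒜]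
    [Preadditive 𝒜] [MonoidalPreadditive 𝒜] [Linear ℚ 𝒜] [MonoidalLinear ℚ 𝒜]
    [∀ X : 𝒜, HasRightDual X] (hunit : ∀ f : 𝟙_ 𝒜 ⟶ 𝟙_ 𝒜, ∃ q : ℚ, f = q • 𝟙 (𝟙_ 𝒜))
    {K : Type w} [Field K] [CharZero K] (F : SuperRealisation 𝒜 K) :
    ((∀ (M N : 𝒜) (f : M ⟶ N), Function.Injective (F.map f) → ∃ g : N ⟶ M, f ≫ g = 𝟙 M) ↔
      (∀ E : 𝒜, StandardD F E) ∧
        ∀ (M N : 𝒜) (f : M ⟶ N), Function.Bijective (F.map f) → IsIso f) ∧
    ∀ (M N : 𝒜) (f : M ⟶ N), KimuraFinite M → StandardD F (M ⊗ Mᘁ) → StandardD F (N ⊗ Mᘁ) →
      Function.Injective (F.map f) → ∃ g : N ⟶ M, f ≫ g = 𝟙 M :=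
  ⟨Pool.Agent.TH829.Inj.injectiveSplit_iff F.toReal hunit,
    fun _ _ f hM hD hD' hf =>
      Pool.Agent.TH829.Inj.split_of_kimura F.toReal hunit hM hD hD' f hf⟩

end Pool.Agent.Results.MP_a147f7_ag.EquivalentConjectures
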